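import Pool.Agent.Y957.VK.Stm3

/-! # Project VK, part 3: division of a weight by the logarithm -/

set_option autoImplicit false

namespace Pool.Agent.Y748.VK

open Finset Filter

theorem abel_id (a : ℕ → ℝ) (u : ℕ → ℂ) (N : ℕ) :
    ∑ n ∈ Icc 1 N, (a n : ℂ) * u n = (a N : ℂ) * (∑ n ∈ Icc 1 N, u n) +
      ∑ n ∈ range N, ((a n : ℂ) - (a (n + 1) : ℂ)) * ∑ m ∈ Icc 1 n, u m := by
  induction N with
  | zero => simp
  | succ N ih =>
    rw [Finset.sum_Icc_succ_top (by omega), Finset.sum_range_succ, ih,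
      Finset.sum_Icc_succ_top (by omega)]
    ring

theorem abel_norm (a : ℕ → ℝ) (u : ℕ → ℂ) (N : ℕ) (D : ℝ) (ha : Antitone a) (h0 : ∀ n, 0 ≤ a n)
    (h1 : a 0 ≤ 1) (hD : ∀ n, n ≤ N → ‖∑ m ∈ Icc 1 n, u m‖ ≤ D) :
    ‖∑ n ∈ Icc 1 N, (a n : ℂ) * u n‖ ≤ D := by
  have hD0 : 0 ≤ D := (norm_nonneg _).trans (hD 0 (Nat.zero_le _))
  rw [abel_id]
  have e1 : ‖(a N : ℂ) * (∑ n ∈ Icc 1 N, u n)‖ ≤ a N * D := by
    rw [norm_mul, Complex.norm_real, Real.norm_of_nonneg (h0 N)]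
    exact mul_le_mul_of_nonneg_left (hD N le_rfl) (h0 N)
  have e2 : ‖∑ n ∈ range N, ((a n : ℂ) - (a (n + 1) : ℂ)) * ∑ m ∈ Icc 1 n, u m‖ ≤
      ∑ n ∈ range N, (a n - a (n + 1)) * D := by
    refine (norm_sum_le _ _).trans (Finset.sum_le_sum fun n hn => ?_)
    rw [Finset.mem_range] at hn
    have h2 : 0 ≤ a n - a (n + 1) := sub_nonneg.2 (ha (Nat.le_succ n))
    rw [norm_mul, ← Complex.ofReal_sub, Complex.norm_real, Real.norm_of_nonneg h2]
    exact mul_le_mul_of_nonneg_left (hD n hn.le) h2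
  rw [← Finset.sum_mul, Finset.sum_range_sub'] at e2
  calc _ ≤ a N * D + (a 0 - a N) * D := (norm_add_le _ _).trans (add_le_add e1 e2)
    _ = a 0 * D := by ring
    _ ≤ 1 * D := mul_le_mul_of_nonneg_right h1 hD0
    _ = D := one_mul D

theorem log3 (n : ℕ) : 1 ≤ Real.log ((n : ℝ) + 3) := by
  rw [Real.le_log_iff_exp_le (by positivity)]
  have h1 := Real.exp_one_lt_d9
  have h2 : (0 : ℝ) ≤ n := Nat.cast_nonneg n
  linarith

/-- `log (N + 3) ^ (K + 1) ≤ C √N` -/
theorem logpow (K N : ℕ) (hN : 2 ≤ N) : Real.log ((N : ℝ) + 3) ^ (K + 1) ≤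
    (2 * ((K : ℝ) + 1)) ^ (K + 1) * (2 * Real.sqrt N) := by
  have hNR : (2 : ℝ) ≤ N := by exact_mod_cast hN
  set ε : ℝ := 1 / (2 * ((K : ℝ) + 1)) with hε
  have hK : (0 : ℝ) < 2 * ((K : ℝ) + 1) := by positivity
  have hε0 : 0 < ε := by positivity
  have hx : (0 : ℝ) ≤ (N : ℝ) + 3 := by positivity
  have h1 := Real.log_le_rpow_div hx hε0
  have h2 : 0 ≤ Real.log ((N : ℝ) + 3) := by linarith [log3 N]
  have h3 : Real.log ((N : ℝ) + 3) ^ (K + 1) ≤ (((N : ℝ) + 3) ^ ε / ε) ^ (K + 1) :=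
    pow_le_pow_left₀ h2 h1 _
  have h4 : (((N : ℝ) + 3) ^ ε / ε) ^ (K + 1) =
      (2 * ((K : ℝ) + 1)) ^ (K + 1) * Real.sqrt ((N : ℝ) + 3) := by
    rw [div_pow, ← Real.rpow_natCast (((N : ℝ) + 3) ^ ε), ← Real.rpow_mul hx]
    have h5 : ε * ((K + 1 : ℕ) : ℝ) = 1 / 2 := by
      rw [hε]
      push_cast
      field_simp
    rw [h5, ← Real.sqrt_eq_rpow, hε, one_div, inv_pow, div_inv_eq_mul]
    ring
  have h6 : Real.sqrt ((N : ℝ) + 3) ≤ 2 * Real.sqrt N := by
    rw [Real.sqrt_le_left (by positivity), mul_pow, Real.sq_sqrt (by linarith)]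
    linarith
  calc _ ≤ _ := h3
    _ = _ := h4
    _ ≤ _ := mul_le_mul_of_nonneg_left h6 (by positivity)

theorem core (w : ℕ → ℂ) (e : ℝ → ℕ → ℂ) (he : ∀ τ n, ‖e τ n‖ ≤ 1)
    (hw : ∀ n, ‖w n‖ ≤ Real.log ((n : ℝ) + 3))
    (h : ∀ A K : ℕ, ∃ C : ℝ, ∀ (N : ℕ) (τ : ℝ), 2 ≤ N → |τ| ≤ (N : ℝ) ^ A →
      ‖∑ n ∈ Finset.Icc 1 N, w n * e τ n‖ ≤ C * N / (Real.log N) ^ K) (A K : ℕ) :
    ∃ C : ℝ, ∀ (N : ℕ) (τ : ℝ), 2 ≤ N → |τ| ≤ (N : ℝ) ^ A →
      ‖∑ n ∈ Finset.Icc 1 N, (w n / (Real.log ((n : ℝ) + 3) : ℂ)) * e τ n‖ ≤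
        C * N / (Real.log N) ^ K := by
  obtain ⟨C₁, hC₁⟩ := h (2 * A) K
  refine ⟨|C₁| * 2 ^ K + (2 * ((K : ℝ) + 1)) ^ (K + 1) * 2, fun N τ hN hτ => ?_⟩
  have hNR : (2 : ℝ) ≤ N := by exact_mod_cast hN
  have hlN : 0 < Real.log N := Real.log_pos (by linarith)
  have hlNK : 0 < Real.log N ^ K := pow_pos hlN K
  set Q : ℝ := (2 * ((K : ℝ) + 1)) ^ (K + 1) * 2 with hQ
  have hQ0 : 0 ≤ Q := by positivity
  have hant : Antitone (fun n : ℕ => 1 / Real.log ((n : ℝ) + 3)) := by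
    intro n m hnm
    have h1 : (n : ℝ) ≤ m := by exact_mod_cast hnm
    have h0 : (0 : ℝ) ≤ n := Nat.cast_nonneg n
    have h2 : Real.log ((n : ℝ) + 3) ≤ Real.log ((m : ℝ) + 3) :=
      Real.log_le_log (by linarith) (by linarith)
    exact one_div_le_one_div_of_le (by linarith [log3 n]) h2
  have key := abel_norm (fun n : ℕ => 1 / Real.log ((n : ℝ) + 3)) (fun n => w n * e τ n) N
    ((|C₁| * 2 ^ K + Q) * N / (Real.log N) ^ K) hant
    (fun n => by have := log3 n; positivity)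
    (by
      have := log3 0
      show 1 / Real.log (((0 : ℕ) : ℝ) + 3) ≤ 1
      rw [div_le_one (by linarith)]
      exact this) ?_
  · have e3 : ∀ n ∈ Finset.Icc 1 N, (w n / (Real.log ((n : ℝ) + 3) : ℂ)) * e τ n =
        ((1 / Real.log ((n : ℝ) + 3) : ℝ) : ℂ) * (w n * e τ n) := by
      intro n _
      push_cast
      ring
    rw [Finset.sum_congr rfl e3]
    exact key
  · intro n hn
    have hnR : (n : ℝ) ≤ N := by exact_mod_cast hn
    have hn0 : (0 : ℝ) ≤ n := Nat.cast_nonneg n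
    by_cases hsq : n ^ 2 < N
    · -- trivial bound
      have hsqR : (n : ℝ) ^ 2 ≤ N := by exact_mod_cast hsq.le
      have hns : (n : ℝ) ≤ Real.sqrt N := Real.le_sqrt_of_sq_le hsqR
      have h1 : ‖∑ m ∈ Finset.Icc 1 n, w m * e τ m‖ ≤ n * Real.log ((N : ℝ) + 3) := by
        refine (norm_sum_le _ _).trans ?_
        calc ∑ m ∈ Finset.Icc 1 n, ‖w m * e τ m‖ ≤
            ∑ m ∈ Finset.Icc 1 n, Real.log ((N : ℝ) + 3) := by
              refine Finset.sum_le_sum fun m hm => ?_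
              rw [Finset.mem_Icc] at hm
              have hmN : (m : ℝ) ≤ N := by exact_mod_cast hm.2.trans hn
              have hm0 : (0 : ℝ) ≤ m := Nat.cast_nonneg m
              have h3 : Real.log ((m : ℝ) + 3) ≤ Real.log ((N : ℝ) + 3) :=
                Real.log_le_log (by linarith) (by linarith)
              rw [norm_mul]
              calc ‖w m‖ * ‖e τ m‖ ≤ ‖w m‖ * 1 :=
                    mul_le_mul_of_nonneg_left (he τ m) (norm_nonneg _)
                _ = ‖w m‖ := mul_one _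
                _ ≤ _ := (hw m).trans h3
          _ = n * Real.log ((N : ℝ) + 3) := by
              rw [Finset.sum_const, Nat.card_Icc, nsmul_eq_mul]
              simp
      refine h1.trans ?_
      rw [le_div_iff₀ hlNK]
      have h4 : Real.log N ^ K ≤ Real.log ((N : ℝ) + 3) ^ K :=
        pow_le_pow_left₀ hlN.le (Real.log_le_log (by linarith) (by linarith)) K
      have h5 : 0 ≤ Real.log ((N : ℝ) + 3) := by linarith [log3 N]
      have h6 := logpow K N hN
      have h7 : 0 ≤ Real.sqrt N := Real.sqrt_nonneg _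
      calc (n : ℝ) * Real.log ((N : ℝ) + 3) * Real.log N ^ K ≤
          Real.sqrt N * Real.log ((N : ℝ) + 3) * Real.log ((N : ℝ) + 3) ^ K := by
            apply mul_le_mul _ h4 (by positivity) (by positivity)
            exact mul_le_mul_of_nonneg_right hns h5
        _ = Real.sqrt N * Real.log ((N : ℝ) + 3) ^ (K + 1) := by ring
        _ ≤ Real.sqrt N * ((2 * ((K : ℝ) + 1)) ^ (K + 1) * (2 * Real.sqrt N)) :=
            mul_le_mul_of_nonneg_left h6 h7
        _ = Q * (Real.sqrt N * Real.sqrt N) := by rw [hQ]; ring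
        _ = Q * N := by rw [Real.mul_self_sqrt (by linarith)]
        _ ≤ (|C₁| * 2 ^ K + Q) * N := by
            have : 0 ≤ |C₁| * 2 ^ K * (N : ℝ) := by positivity
            nlinarith
    · push Not at hsq
      have hn2 : 2 ≤ n := by
        by_contra hlt
        have : n ≤ 1 := by omega
        have : n ^ 2 ≤ 1 := by nlinarith
        omega
      have hn2R : (2 : ℝ) ≤ n := by exact_mod_cast hn2
      have hsqR : (N : ℝ) ≤ (n : ℝ) ^ 2 := by exact_mod_cast hsq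
      have hτn : |τ| ≤ (n : ℝ) ^ (2 * A) := by
        rw [pow_mul]
        exact hτ.trans (pow_le_pow_left₀ (by linarith) hsqR A)
      have h1 := hC₁ n τ hn2 hτn
      have hln : Real.log N ≤ 2 * Real.log n := by
        have h2 := Real.log_le_log (by linarith) hsqR
        rwa [Real.log_pow] at h2
      have hln0 : 0 < Real.log n := Real.log_pos (by linarith)
      have hlnK : 0 < Real.log n ^ K := pow_pos hln0 K
      have h3 : Real.log N ^ K ≤ 2 ^ K * Real.log n ^ K := by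
        rw [← mul_pow]
        exact pow_le_pow_left₀ hlN.le hln K
      refine h1.trans ?_
      rw [div_le_div_iff₀ hlnK hlNK]
      calc C₁ * n * Real.log N ^ K ≤ |C₁| * n * Real.log N ^ K := by
            apply mul_le_mul_of_nonneg_right _ hlNK.le
            exact mul_le_mul_of_nonneg_right (le_abs_self _) hn0
        _ ≤ |C₁| * N * (2 ^ K * Real.log n ^ K) := by
            apply mul_le_mul _ h3 hlNK.le (by positivity)
            exact mul_le_mul_of_nonneg_left hnR (abs_nonneg _)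
        _ = (|C₁| * 2 ^ K) * N * Real.log n ^ K := by ring
        _ ≤ (|C₁| * 2 ^ K + Q) * N * Real.log n ^ K := by
            apply mul_le_mul_of_nonneg_right _ hlnK.le
            apply mul_le_mul_of_nonneg_right _ (by linarith)
            linarith

open Pool.Agent.Y957.VK in
/-- (W1) division by the logarithm -/
theorem wneg : S_WNEG := by
  intro w hw h A K
  obtain ⟨C, hC⟩ := core w (fun τ n => Pool.Agent.H376R2.MR.er τ (Real.log n)) (fun τ n => by
    unfold Pool.Agent.H376R2.MR.er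
    rw [Complex.norm_exp_ofReal_mul_I]) hw h A K
  exact ⟨C, fun N τ hN hτ => hC N τ hN hτ⟩

end Pool.Agent.Y748.VK
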